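import Pool.Agent.EWG.StmtsC
import Pool.Agent.Common_Mertens.Mertens

/-!
# Row SLL (squad EWG): Mertens, upper bound with `l - 1`
-/

set_option autoImplicit false

namespace Pool.Agent.EWG.H19

open Finset Pool.Agent.EWG

lemma pr_eq (y : ℕ) : pr (Icc 1 y) = Nat.primesLE y := by
  ext p
  rw [mem_pr, mem_Icc, Nat.mem_primesLE]
  constructor
  · rintro ⟨⟨_, h2⟩, h3⟩
    exact ⟨h2, h3⟩
  · rintro ⟨h2, h3⟩
    exact ⟨⟨h3.one_le, h2⟩, h3⟩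

lemma log_term {l : ℕ} (hl : 2 ≤ l) :
    Real.log l / ((l : ℝ) - 1) ≤ Real.log l / l + 4 * (1 / (l : ℝ) ^ (3 / 2 : ℝ)) := by
  have h2 : (2 : ℝ) ≤ l := by exact_mod_cast hl
  have h0 : (0 : ℝ) < l := by linarith
  have h1 : (0 : ℝ) < (l : ℝ) - 1 := by linarith
  have hlog : Real.log l ≤ 2 * (l : ℝ) ^ (1 / 2 : ℝ) := by
    have := Real.log_le_rpow_div (x := (l : ℝ)) (ε := 1 / 2) h0.le (by norm_num)
    linarith
  have hsplit : Real.log l / ((l : ℝ) - 1) = Real.log l / l + Real.log l / (l * ((l : ℝ) - 1)) := by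
    field_simp
    ring
  rw [hsplit]
  have hA : (0 : ℝ) < (l : ℝ) ^ (1 / 2 : ℝ) := Real.rpow_pos_of_pos h0 _
  have hB : (0 : ℝ) < (l : ℝ) ^ (3 / 2 : ℝ) := Real.rpow_pos_of_pos h0 _
  have hAB : (l : ℝ) ^ (1 / 2 : ℝ) * (l : ℝ) ^ (3 / 2 : ℝ) = (l : ℝ) ^ 2 := by
    rw [← Real.rpow_add h0, ← Real.rpow_natCast]
    norm_num
  have hfin : Real.log l / (l * ((l : ℝ) - 1)) ≤ 4 * (1 / (l : ℝ) ^ (3 / 2 : ℝ)) := by
    rw [mul_one_div, div_le_div_iff₀ (by positivity) hB]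
    calc Real.log l * (l : ℝ) ^ (3 / 2 : ℝ)
        ≤ 2 * (l : ℝ) ^ (1 / 2 : ℝ) * (l : ℝ) ^ (3 / 2 : ℝ) :=
          mul_le_mul_of_nonneg_right hlog hB.le
      _ = 2 * (l : ℝ) ^ 2 := by rw [mul_assoc, hAB]
      _ ≤ 4 * (l * ((l : ℝ) - 1)) := by nlinarith
  linarith

theorem sll : SllStmt := by
  have hsum : Summable (fun n : ℕ => 1 / (n : ℝ) ^ (3 / 2 : ℝ)) :=
    Real.summable_one_div_nat_rpow.2 (by norm_num)
  refine ⟨Real.log 4 + 4 * ∑' n : ℕ, 1 / (n : ℝ) ^ (3 / 2 : ℝ), ?_, ?_⟩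
  · have h1 : 0 < Real.log 4 := Real.log_pos (by norm_num)
    have h2 : 0 ≤ ∑' n : ℕ, 1 / (n : ℝ) ^ (3 / 2 : ℝ) :=
      tsum_nonneg (fun n => by positivity)
    linarith
  · intro y hy
    rw [pr_eq]
    have h1 : ∑ l ∈ Nat.primesLE y, Real.log l / ((l : ℝ) - 1)
        ≤ ∑ l ∈ Nat.primesLE y, (Real.log l / l + 4 * (1 / (l : ℝ) ^ (3 / 2 : ℝ))) := by
      refine sum_le_sum fun l hl => ?_
      exact log_term (Nat.prime_of_mem_primesLE hl).two_le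
    have h2 : ∑ l ∈ Nat.primesLE y, 1 / (l : ℝ) ^ (3 / 2 : ℝ)
        ≤ ∑' n : ℕ, 1 / (n : ℝ) ^ (3 / 2 : ℝ) :=
      hsum.sum_le_tsum _ (fun n _ => by positivity)
    have h3 := Pool.Agent.Common_Mertens.sum_log_div_le hy
    rw [sum_add_distrib, ← mul_sum] at h1
    linarith

end Pool.Agent.EWG.H19
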