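import Pool.Agent.EWG.StmtsB

/-!
# Row VAU (squad EWG): Vaughan's identity in summed form
-/

set_option autoImplicit false

namespace Pool.Agent.EWG.H19

open Finset ArithmeticFunction Pool.Agent.PrimeFourier Pool.Agent.EWG
open scoped ArithmeticFunction.Moebius ArithmeticFunction.zeta ArithmeticFunction.vonMangoldt

noncomputable def cutLe (F : ArithmeticFunction ℝ) (U : ℕ) : ArithmeticFunction ℝ :=
  ⟨fun n => if n ≤ U then F n else 0, by simp⟩

noncomputable def cutGt (F : ArithmeticFunction ℝ) (U : ℕ) : ArithmeticFunction ℝ :=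
  ⟨fun n => if U < n then F n else 0, by simp⟩

lemma cutLe_apply (F : ArithmeticFunction ℝ) (U n : ℕ) :
    cutLe F U n = if n ≤ U then F n else 0 := rfl

lemma cutGt_apply (F : ArithmeticFunction ℝ) (U n : ℕ) :
    cutGt F U n = if U < n then F n else 0 := rfl

lemma cut_add (F : ArithmeticFunction ℝ) (U : ℕ) : cutLe F U + cutGt F U = F := by
  ext n
  rw [ArithmeticFunction.add_apply, cutLe_apply, cutGt_apply]
  by_cases h : n ≤ U
  · rw [if_pos h, if_neg (not_lt.2 h), add_zero]
  · rw [if_neg h, if_pos (not_le.1 h), zero_add]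

lemma conv_sum (F G : ArithmeticFunction ℝ) (f : ℕ → ℝ) (x : ℕ) :
    ∑ n ∈ Ioc 0 x, (F * G) n * f n
      = ∑ d ∈ Ioc 0 x, ∑ m ∈ Ioc 0 (x / d), F d * G m * f (d * m) := by
  rw [← sum_divisorsAntidiagonal_eq (fun d m => F d * G m * f (d * m)) x]
  refine sum_congr rfl fun n _ => ?_
  rw [ArithmeticFunction.mul_apply, sum_mul]
  refine sum_congr rfl fun y hy => ?_
  rw [(Nat.mem_divisorsAntidiagonal.1 hy).1]

lemma cut_sum (H : ℕ → ℝ) (V x : ℕ) (h0 : ∀ b, x < b → H b = 0) :
    ∑ d ∈ Ioc 0 x, (if d ≤ V then H d else 0) = ∑ b ∈ Ioc 0 V, H b := by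
  rw [← sum_filter]
  apply sum_subset
  · intro d hd
    rw [mem_filter, mem_Ioc] at hd
    rw [mem_Ioc]
    exact ⟨hd.1.1, hd.2⟩
  · intro d hd hd'
    rw [mem_Ioc] at hd
    rw [mem_filter, mem_Ioc] at hd'
    apply h0
    by_contra h
    exact hd' ⟨⟨hd.1, not_lt.1 h⟩, hd.2⟩

lemma AV_eq_zero (V k : ℕ) (h1 : 0 < k) (h2 : k ≤ V) : AV V k = 0 := by
  unfold AV
  apply sum_eq_zero
  intro b hb
  rw [mem_filter, Nat.mem_divisors] at hb
  exact absurd (Nat.le_of_dvd h1 hb.1.1) (by omega)

lemma cutGt_mul_zeta (V k : ℕ) :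
    (cutGt ((μ : ArithmeticFunction ℤ) : ArithmeticFunction ℝ) V * (ζ : ArithmeticFunction ℝ)) k
      = AV V k := by
  rw [ArithmeticFunction.coe_mul_zeta_apply]
  unfold AV
  rw [sum_filter]
  refine sum_congr rfl fun b _ => ?_
  rw [cutGt_apply, ArithmeticFunction.intCoe_apply]

theorem ring_identity (U V : ℕ) :
    (vonMangoldt : ArithmeticFunction ℝ)
      + cutLe ((μ : ArithmeticFunction ℤ) : ArithmeticFunction ℝ) V
          * (cutLe vonMangoldt U * (ζ : ArithmeticFunction ℝ)) = cutLe vonMangoldt U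
      + cutLe ((μ : ArithmeticFunction ℤ) : ArithmeticFunction ℝ) V * ArithmeticFunction.log
      + cutGt vonMangoldt U
          * (cutGt ((μ : ArithmeticFunction ℤ) : ArithmeticFunction ℝ) V
              * (ζ : ArithmeticFunction ℝ)) := by
  have h1 : (vonMangoldt * (ζ : ArithmeticFunction ℝ)) = ArithmeticFunction.log :=
    vonMangoldt_mul_zeta
  have h2 : ((μ : ArithmeticFunction ℤ) : ArithmeticFunction ℝ) * (ζ : ArithmeticFunction ℝ) = 1 :=
    coe_moebius_mul_coe_zeta
  have h3 := cut_add vonMangoldt U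
  have h4 := cut_add ((μ : ArithmeticFunction ℤ) : ArithmeticFunction ℝ) V
  rw [← h1]
  generalize cutLe vonMangoldt U = L1 at h3 ⊢
  generalize cutGt vonMangoldt U = L2 at h3 ⊢
  generalize cutLe ((μ : ArithmeticFunction ℤ) : ArithmeticFunction ℝ) V = M1 at h4 ⊢
  generalize cutGt ((μ : ArithmeticFunction ℤ) : ArithmeticFunction ℝ) V = M2 at h4 ⊢
  rw [← h4] at h2
  rw [← h3]
  have h5 : L2 * ((M1 + M2) * (ζ : ArithmeticFunction ℝ)) = L2 := by rw [h2, mul_one]
  calc L1 + L2 + M1 * (L1 * (ζ : ArithmeticFunction ℝ))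
      = L1 + L2 * ((M1 + M2) * (ζ : ArithmeticFunction ℝ))
        + M1 * (L1 * (ζ : ArithmeticFunction ℝ)) := by rw [h5]
    _ = _ := by ring

theorem vau : VauStmt := by
  intro f U V x hUx
  have key : ∀ n, vonMangoldt n * f n
      = cutLe vonMangoldt U n * f n
        + (cutLe ((μ : ArithmeticFunction ℤ) : ArithmeticFunction ℝ) V
            * ArithmeticFunction.log) n * f n
        - (cutLe ((μ : ArithmeticFunction ℤ) : ArithmeticFunction ℝ) V
            * (cutLe vonMangoldt U * (ζ : ArithmeticFunction ℝ))) n * f n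
        + (cutGt vonMangoldt U
            * (cutGt ((μ : ArithmeticFunction ℤ) : ArithmeticFunction ℝ) V
              * (ζ : ArithmeticFunction ℝ))) n * f n := by
    intro n
    have h := congrArg (fun F : ArithmeticFunction ℝ => F n) (ring_identity U V)
    simp only [ArithmeticFunction.add_apply] at h
    have h' := congrArg (fun z : ℝ => z * f n) h
    simp only [add_mul] at h'
    linarith
  rw [sum_congr rfl fun n _ => key n, sum_add_distrib, sum_sub_distrib, sum_add_distrib]
  unfold S123 S4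
  have t1 : ∑ n ∈ Ioc 0 x, cutLe vonMangoldt U n * f n
      = ∑ n ∈ Ioc 0 U, vonMangoldt n * f n := by
    have h : ∀ n ∈ Ioc 0 x, cutLe vonMangoldt U n * f n
        = if n ≤ U then vonMangoldt n * f n else 0 := by
      intro n _
      rw [cutLe_apply, ite_mul, zero_mul]
    rw [sum_congr rfl h, ← sum_filter]
    congr 1
    ext n
    rw [mem_filter, mem_Ioc, mem_Ioc]
    omega
  have t2 : ∑ n ∈ Ioc 0 x, (cutLe ((μ : ArithmeticFunction ℤ) : ArithmeticFunction ℝ) V
        * ArithmeticFunction.log) n * f n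
      = ∑ b ∈ Ioc 0 V, (μ b : ℝ) * ∑ k ∈ Ioc 0 (x / b), Real.log k * f (b * k) := by
    rw [conv_sum]
    rw [← cut_sum (fun b => (μ b : ℝ) * ∑ k ∈ Ioc 0 (x / b), Real.log k * f (b * k)) V x]
    · refine sum_congr rfl fun b _ => ?_
      rw [cutLe_apply, ArithmeticFunction.intCoe_apply]
      split_ifs with h
      · rw [mul_sum]
        refine sum_congr rfl fun k _ => ?_
        rw [ArithmeticFunction.log_apply]
        ring
      · apply sum_eq_zero
        intro k _
        rw [zero_mul, zero_mul]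
    · intro b hb
      rw [Nat.div_eq_of_lt hb]
      simp
  have t3 : ∑ n ∈ Ioc 0 x, (cutLe ((μ : ArithmeticFunction ℤ) : ArithmeticFunction ℝ) V
        * (cutLe vonMangoldt U * (ζ : ArithmeticFunction ℝ))) n * f n
      = ∑ b ∈ Ioc 0 V, ∑ c ∈ Ioc 0 U, (μ b : ℝ) * vonMangoldt c
          * ∑ k ∈ Ioc 0 (x / (b * c)), f (b * c * k) := by
    rw [conv_sum]
    rw [← cut_sum (fun b => ∑ c ∈ Ioc 0 U, (μ b : ℝ) * vonMangoldt c
          * ∑ k ∈ Ioc 0 (x / (b * c)), f (b * c * k)) V x]
    · refine sum_congr rfl fun b _ => ?_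
      rw [cutLe_apply, ArithmeticFunction.intCoe_apply]
      split_ifs with h
      · have e1 : ∑ m ∈ Ioc 0 (x / b), (μ b : ℝ)
              * (cutLe vonMangoldt U * (ζ : ArithmeticFunction ℝ)) m * f (b * m)
            = (μ b : ℝ) * ∑ m ∈ Ioc 0 (x / b),
              (cutLe vonMangoldt U * (ζ : ArithmeticFunction ℝ)) m * (fun m => f (b * m)) m := by
          rw [mul_sum]
          refine sum_congr rfl fun m _ => ?_
          ring
        rw [e1, conv_sum]
        rw [mul_sum]
        rw [← cut_sum (fun c => (μ b : ℝ) * vonMangoldt c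
          * ∑ k ∈ Ioc 0 (x / (b * c)), f (b * c * k)) U (x / b)]
        · refine sum_congr rfl fun c _ => ?_
          rw [cutLe_apply, Nat.div_div_eq_div_mul]
          split_ifs with h'
          · rw [mul_sum, mul_sum]
            refine sum_congr rfl fun k hk => ?_
            rw [mem_Ioc] at hk
            rw [ArithmeticFunction.natCoe_apply, ArithmeticFunction.zeta_apply,
              if_neg (by omega : k ≠ 0), mul_assoc b c k]
            push_cast
            ring
          · rw [sum_eq_zero (fun k _ => by rw [zero_mul, zero_mul]), mul_zero]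
        · intro c hc
          rw [← Nat.div_div_eq_div_mul, Nat.div_eq_of_lt hc]
          simp
      · apply sum_eq_zero
        intro k _
        rw [zero_mul, zero_mul]
    · intro b hb
      apply sum_eq_zero
      intro c _
      rw [← Nat.div_div_eq_div_mul, Nat.div_eq_of_lt hb]
      simp
  have t4 : ∑ n ∈ Ioc 0 x, (cutGt vonMangoldt U
            * (cutGt ((μ : ArithmeticFunction ℤ) : ArithmeticFunction ℝ) V
              * (ζ : ArithmeticFunction ℝ))) n * f n
      = ∑ c ∈ Ioc U x, ∑ k ∈ Ioc V (x / c), vonMangoldt c * AV V k * f (c * k) := by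
    rw [conv_sum]
    have e1 : ∀ c ∈ Ioc 0 x, ∑ m ∈ Ioc 0 (x / c), cutGt vonMangoldt U c
          * (cutGt ((μ : ArithmeticFunction ℤ) : ArithmeticFunction ℝ) V
              * (ζ : ArithmeticFunction ℝ)) m * f (c * m)
        = if U < c then ∑ k ∈ Ioc V (x / c), vonMangoldt c * AV V k * f (c * k) else 0 := by
      intro c _
      rw [cutGt_apply]
      split_ifs with h
      · symm
        apply (sum_subset _ _).trans
        · refine sum_congr rfl fun k _ => ?_
          rw [cutGt_mul_zeta]
        · intro k hk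
          rw [mem_Ioc] at hk ⊢
          omega
        · intro k hk hk'
          rw [mem_Ioc] at hk hk'
          rw [AV_eq_zero V k hk.1 (by omega)]
          ring
      · apply sum_eq_zero
        intro k _
        rw [zero_mul, zero_mul]
    rw [sum_congr rfl e1, ← sum_filter]
    congr 1
    ext n
    rw [mem_filter, mem_Ioc, mem_Ioc]
    omega
  rw [t1, t2, t3, t4]

end Pool.Agent.EWG.H19
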